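import Pool.Agent.P.MP_81d17b_pr.Gibbs

open MeasureTheory ProbabilityTheory Pool.Agent.P.MP_81d17b_pr

namespace Pool.Agent.P.MP_81d17b_pr.Old.HighTempUnique

/-- Edwards-Anderson model on the `d`-dimensional hypercubic lattice with independent symmetric
couplings `+1`, `-1`: almost surely there is exactly one Gibbs state at every inverse
temperature `β` with `0 < β ≤ 1 / (20 √d)`. -/
theorem result (d : ℕ) (hd : 2 ≤ d) {Ω : Type} [MeasurableSpace Ω] (P : Measure Ω)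
    [IsProbabilityMeasure P] (J : Edge d → Ω → ℝ) (hm : ∀ e, Measurable (J e))
    (hind : iIndepFun J P) (hplus : ∀ e, P {ω | J e ω = 1} = 1 / 2)
    (hminus : ∀ e, P {ω | J e ω = -1} = 1 / 2) :
    ∀ᵐ ω ∂P, ∀ β : ℝ, 0 < β → β ≤ 1 / (20 * Real.sqrt d) →
      ∃! π : Measure (Config d), IsGibbs β (fun e => J e ω) π := by
  filter_upwards [ae_infl hd hm hind hplus, ae_sgn hm hplus hminus] with ω h1 h2 β hβ0 hβ
  obtain ⟨π, hπ⟩ := gibbs_exists β fun e => J e ω
  refine ⟨π, hπ, fun π' hπ' => ?_⟩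
  rw [h2] at hπ hπ'
  exact gibbs_unique hd hβ0 hβ _ h1 hπ' hπ

end Pool.Agent.P.MP_81d17b_pr.Old.HighTempUnique
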