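import Pool.Agent.P.MP_81d17b_pr.LR.Iv4

open Pool.Agent.P.MP_81d17b_pr.LR MeasureTheory ProbabilityTheory

namespace Pool.Agent.P.MP_81d17b_pr.Old.SparseLongEdges

/-- Non-uniqueness of Gibbs states at low temperature for the Gaussian Edwards-Anderson spin glass
on the graph made of the `d`-dimensional lattice and independent random long edges, the pair
`{x, y}` being an edge with probability `p (x - y)` of order `|x - y| ^ (-t)`, `d < t < 2 d`. -/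
theorem result (d : ℕ) (hd : 1 ≤ d) (t c C : ℝ) (h1 : (d : ℝ) < t) (h2 : t < 2 * d)
    (hc : 0 < c) (hC : c ≤ C) :
    ∃ β0 : ℝ, ∀ β : ℝ, β0 ≤ β →
      ∀ p : (Fin d → ℤ) → ℝ, (∀ v, 0 ≤ p v ∧ p v ≤ 1) → (∀ v, p (-v) = p v) →
        (∀ i, p (Pi.single i 1) = 1) →
        (∀ v, v ≠ 0 → c * ‖v‖ ^ (-t) ≤ p v ∧ p v ≤ C * ‖v‖ ^ (-t)) →
      ∀ (Ω : Type) [MeasurableSpace Ω] (P : Measure Ω) (J : Sym2 (Fin d → ℤ) → Ω → ℝ),
        (∀ e, Measurable (J e)) → iIndepFun J P →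
        (∀ x y, P.map (J s(x, y)) = lawp (p (x - y))) →
        ∀ᵐ ω ∂P, (∀ x, {y | J s(x, y) ω ≠ 0}.Finite) ∧
          ∃ μ ν, IsDLR β (fun e => J e ω) μ ∧ IsDLR β (fun e => J e ω) ν ∧ μ ≠ ν := by
  obtain ⟨β0, H⟩ := fv_main hd h1 h2 hc (hc.le.trans hC) (δ := 1 / 4) (by norm_num)
  refine ⟨β0, fun β hβ p hp hsym hnn hb Ω _ P J hJ hi hl => ?_⟩
  obtain ⟨k0, H⟩ := H β hβ
  filter_upwards [ae_locfin h1 (fun v => (hp v).1) (fun v hv => (hb v hv).2) hJ hl,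
    (zero_one hJ hi meas_UU inv_UU).resolve_left (not_ae_UU hd hp hsym hnn hb hJ hi hl H)]
    with ω a b
  exact ⟨a, two_states a b⟩

end Pool.Agent.P.MP_81d17b_pr.Old.SparseLongEdges
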